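import Pool.Agent.GD.Main.Zero
import Pool.Agent.GD.BE.Bet
import Pool.Agent.GD.AL.Sub

/-!
# General d: the main theorem
-/

set_option autoImplicit false

namespace Pool.Agent.GD

/-- The result for all critical vectors of densities. -/
theorem targetZero_main : TargetZero :=
  target_zero AL.targetSub BE.targetBet

end Pool.Agent.GD
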