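import Pool.Agent.GD.N.Num
import Pool.Agent.GD.N.Zero
import Pool.Agent.GD.ST.Step
import Pool.Agent.GD.ST.Add
import Pool.Agent.GD.ST.Ctr
import Pool.Agent.GD.Top.Box
import Pool.Agent.GD.GA.Fin

/-!
# General d: the assembly from the two blocks ALPHA (`TargetSub`) and BETA (`TargetT BETJ`)
-/

set_option autoImplicit false

namespace Pool.Agent.GD

theorem target_num : TargetNum :=
  targetNum fun _ _ c n ms h => vd_add _ c n ms h

theorem target_pos : TargetPos := by
  intro d e kap hk
  obtain ⟨η, E, h1, h2, h⟩ := posJ d e kap hk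
  refine ⟨η, E, h1, h2, fun P hd he hkap hP hc => ?_⟩
  subst hd he
  exact h P rfl rfl hkap hP hc

theorem target_top (hB : TargetT BETJ) : TargetTop :=
  targetTop_of hB GA.targetGam targetCv target_pos

theorem target_zero (hS : TargetSub) (hB : TargetT BETJ) : TargetZero :=
  targetZero (fun _ _ _ _ ms hk hc hn h0 => step (fun k _ => hc k) hn ms hk h0)
    (fun _ _ c n ms h => vd_add _ c n ms h) (fun _ _ c _ r ms => HL_simple c r ms) hS (target_top hB)
    target_num targetWin

end Pool.Agent.GD
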